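import Pool.Agent.N422.UF.Stm
import Pool.Agent.N422.CD.FIN

/-! Project UF (helper422): sifting limits for `k` linear forms (UF/FINV). Author: helper94, after
`Pool.Agent.N422.CD.FIN` (helper451). -/

set_option autoImplicit false

open Finset

namespace Pool.Agent.N422.UF

open Pool.Agent.N422.NW Pool.Agent.N422.SL Pool.Agent.N422.WS Pool.Agent.N422.CD

theorem FINV_exp5 {y L : ℝ} (hL : 0 < L) (hy : 5 * Real.log L ≤ y) : Real.exp (-y) ≤ 1 / L ^ 5 := by
  have h1 : Real.exp (5 * Real.log L) = L ^ 5 := by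
    rw [show (5 : ℝ) * Real.log L = ((5 : ℕ) : ℝ) * Real.log L by norm_num, Real.exp_nat_mul, Real.exp_log hL]
  rw [Real.exp_neg, ← one_div]
  apply one_div_le_one_div_of_le (by positivity)
  rw [← h1]
  exact Real.exp_le_exp.2 hy

theorem FINV_exp1 {y : ℝ} (hy : 0 < y) : Real.exp (-y) ≤ 1 / y := by
  rw [Real.exp_neg, ← one_div]
  apply one_div_le_one_div_of_le hy
  linarith [Real.add_one_le_exp y]

/-- the bad primes -/
theorem FINV_bad {Q k D : ℕ} {b : ℝ} (hk : 1 ≤ k) (hb : 0 ≤ b)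
    (hkQ : (k : ℝ) * Real.log (3 * k) ≤ (1 / 10) * Real.log Q) (hD : 0 < D)
    (hlD : Real.log D ≤ 3 * (k : ℝ) ^ 2 * b * Real.log Q) (hL : 2 * b + 1 ≤ Real.log Q) (Bd : Finset ℕ)
    (hBd : ∀ p ∈ Bd, (p.Prime ∧ p ∣ D) ∧ Real.log Q < k * Real.log p) :
    (k : ℝ) * ∑ p ∈ Bd, 1 / (p : ℝ) ≤ 1 / 2 := by
  have hkr : (1 : ℝ) ≤ k := by exact_mod_cast hk
  have hk0 : (0 : ℝ) < k := by linarith
  obtain ⟨L, hLd⟩ : ∃ L, L = Real.log Q := ⟨_, rfl⟩
  rw [← hLd] at hkQ hlD hL hBd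
  have hL0 : 0 < L := by linarith
  obtain ⟨x, hx⟩ : ∃ x, x = L / k := ⟨_, rfl⟩
  have hx0 : 0 < x := by rw [hx]; positivity
  have hxk : k * x = L := by rw [hx]; field_simp
  have h1 : ∀ p ∈ Bd, x < Real.log p := by
    intro p hp
    have h2 := (hBd p hp).2
    rw [← hxk] at h2
    exact lt_of_mul_lt_mul_left h2 hk0.le
  have h2 : (Bd.card : ℝ) * x ≤ 3 * (k : ℝ) ^ 2 * b * L := by
    refine le_trans ?_ ((FIN_lg hD (fun p hp => (hBd p hp).1)).trans hlD)
    rw [← nsmul_eq_mul]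
    exact card_nsmul_le_sum _ _ _ (fun p hp => (h1 p hp).le)
  have h3 : (Bd.card : ℝ) ≤ 3 * (k : ℝ) ^ 3 * b := by
    have h4 : (Bd.card : ℝ) * x ≤ (3 * (k : ℝ) ^ 3 * b) * x := by
      refine h2.trans (le_of_eq ?_)
      rw [← hxk]
      ring
    exact le_of_mul_le_mul_right h4 hx0
  have h4 : ∀ p ∈ Bd, 1 / (p : ℝ) ≤ Real.exp (-x) := by
    intro p hp
    have hp0 : (0 : ℝ) < p := by exact_mod_cast (hBd p hp).1.1.pos
    rw [Real.exp_neg, ← one_div]
    apply one_div_le_one_div_of_le (Real.exp_pos _)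
    rw [← Real.le_log_iff_exp_le hp0]
    exact (h1 p hp).le
  have h5 : ∑ p ∈ Bd, 1 / (p : ℝ) ≤ (3 * (k : ℝ) ^ 3 * b) * Real.exp (-x) := by
    refine (sum_le_sum h4).trans ?_
    rw [sum_const, nsmul_eq_mul]
    exact mul_le_mul_of_nonneg_right h3 (Real.exp_pos _).le
  have h6 : Real.exp (-x) = Real.exp (-(x / 2)) * Real.exp (-(x / 2)) := by
    rw [← Real.exp_add]
    congr 1
    ring
  have h7 : Real.exp (-(x / 2)) ≤ 1 / (3 * (k : ℝ)) ^ 5 := by
    apply FINV_exp5 (by positivity)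
    have h8 : (k : ℝ) * (10 * Real.log (3 * k)) ≤ k * x := by rw [hxk]; linarith
    have h9 := le_of_mul_le_mul_left h8 hk0
    linarith
  have h8 : Real.exp (-(x / 2)) ≤ 1 / (x / 2) := FINV_exp1 (by positivity)
  have h9 : Real.exp (-x) ≤ 1 / (3 * (k : ℝ)) ^ 5 * (1 / (x / 2)) := by
    rw [h6]
    exact mul_le_mul h7 h8 (Real.exp_pos _).le (by positivity)
  calc (k : ℝ) * ∑ p ∈ Bd, 1 / (p : ℝ) ≤ k * ((3 * (k : ℝ) ^ 3 * b) * (1 / (3 * (k : ℝ)) ^ 5 * (1 / (x / 2)))) := by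
        apply mul_le_mul_of_nonneg_left _ hk0.le
        refine h5.trans ?_
        exact mul_le_mul_of_nonneg_left h9 (by positivity)
    _ = 2 * b / (81 * (k * x)) := by
        field_simp
        ring
    _ ≤ 1 / 2 := by
        rw [hxk, div_le_div_iff₀ (by positivity) (by norm_num)]
        nlinarith

/-- the harmonic sum -/
theorem FINV_harm {n : ℕ} (hn : 1 ≤ n) : ∑ j ∈ Ico 1 n, 1 / (j : ℝ) ≤ 1 + Real.log n := by
  have h1 := harmonic_le_one_add_log (n - 1)
  have h2 : ((harmonic (n - 1) : ℚ) : ℝ) = ∑ j ∈ Ico 1 n, 1 / (j : ℝ) := by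
    rw [sum_Ico_eq_sum_range]
    unfold harmonic
    push_cast
    apply sum_congr rfl
    intro i _
    rw [one_div, add_comm]
  rw [← h2]
  refine h1.trans ?_
  rcases Nat.eq_or_lt_of_le hn with h | h
  · rw [← h]
    simp
  · have h3 : (0 : ℝ) < ((n - 1 : ℕ) : ℝ) := by exact_mod_cast (by omega : 0 < n - 1)
    have h4 : ((n - 1 : ℕ) : ℝ) ≤ n := by exact_mod_cast Nat.sub_le _ _
    linarith [Real.log_le_log h3 h4]

/-- the size of `n1` -/
theorem FINV_big {x C : ℝ} (hC : 0 < C) (hx : 4 * C ^ 2 < x) : C * (1 + Real.log x) < x := by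
  have hx0 : 0 < x := lt_of_le_of_lt (by positivity) hx
  obtain ⟨y, hy⟩ : ∃ y, y = Real.sqrt x := ⟨_, rfl⟩
  have hy0 : 0 < y := by rw [hy]; exact Real.sqrt_pos.2 hx0
  have hyx : y ^ 2 = x := by rw [hy]; exact Real.sq_sqrt hx0.le
  have h1 : Real.log x = 2 * Real.log y := by rw [← hyx, Real.log_pow]; norm_num
  have h2 := Real.log_le_sub_one_of_pos hy0
  have h3 : 2 * C < y := by
    by_contra h
    push Not at h
    nlinarith
  have h4 : 1 + Real.log x ≤ 2 * y := by rw [h1]; linarith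
  calc C * (1 + Real.log x) ≤ C * (2 * y) := mul_le_mul_of_nonneg_left h4 hC.le
    _ = (2 * C) * y := by ring
    _ < y * y := mul_lt_mul_of_pos_right h3 hy0
    _ = x := by rw [← hyx]; ring

/-- the sites -/
theorem FINV_crt {N k : ℕ} (q : Fin N → ℕ) (A A' : Fin k → ℕ) (hc : ∀ i a, Nat.Coprime (A a) (q i))
    (hq : ∀ i, 1 < q i) : ∃ hs : Fin k → ℕ, ∀ i a x, q i ∣ x + hs a ↔ q i ∣ A a * x + A' a := by
  have key : ∀ a, ∃ h : ℕ, ∀ i x, q i ∣ x + h ↔ q i ∣ A a * x + A' a := by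
    intro a
    obtain ⟨P, hP⟩ : ∃ P, P = ∏ i, q i := ⟨_, rfl⟩
    have hqP : ∀ i, q i ∣ P := fun i => by rw [hP]; exact dvd_prod_of_mem q (mem_univ i)
    have hco : Nat.Coprime (A a) P := by
      rw [hP]
      exact Nat.Coprime.prod_right fun i _ => hc i a
    have hP0 : 0 < P := by rw [hP]; exact prod_pos fun i _ => by have := hq i; omega
    rcases Nat.lt_or_ge 1 P with h1 | h1
    · obtain ⟨u, -, hu⟩ := Nat.exists_mul_mod_eq_one_of_coprime hco h1
      refine ⟨u * A' a, fun i x => ?_⟩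
      have h2 : A a * u ≡ 1 [MOD q i] := by
        have h3 : A a * u ≡ 1 [MOD P] := by
          unfold Nat.ModEq
          rw [hu, Nat.mod_eq_of_lt h1]
        exact h3.of_dvd (hqP i)
      have h4 : A a * (x + u * A' a) ≡ A a * x + A' a [MOD q i] := by
        have h5 : A a * (x + u * A' a) = A a * x + (A a * u) * A' a := by ring
        rw [h5]
        apply Nat.ModEq.add_left
        simpa using h2.mul_right (A' a)
      rw [← h4.dvd_iff dvd_rfl]
      exact ((hc i a).symm.dvd_mul_left).symm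
    · refine ⟨0, fun i x => ?_⟩
      exfalso
      have h2 := Nat.le_of_dvd hP0 (hqP i)
      have := hq i
      omega
  choose hs h using key
  exact ⟨hs, fun i a x => h a i x⟩

/-- the theorem -/
theorem t_FINV (h1 : S_PSR3) (h2 : CD.S_ARD) (h3 : S_MERT) : S_FINV := by
  classical
  obtain ⟨C', hC', h1⟩ := h1
  obtain ⟨K, hK, h3⟩ := h3
  obtain ⟨c0, hc0⟩ : ∃ c0 : ℝ, c0 = 1 / (10 + 8 * K + 4 * C' ^ 2) := ⟨_, rfl⟩
  have hden : 0 < 10 + 8 * K + 4 * C' ^ 2 := by positivity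
  have hc0pos : 0 < c0 := by rw [hc0]; positivity
  have hc0a : c0 * (10 + 8 * K + 4 * C' ^ 2) = 1 := by rw [hc0]; field_simp
  have hc0b : c0 ≤ 1 / 10 := by
    rw [hc0]
    apply one_div_le_one_div_of_le (by norm_num)
    have : 0 ≤ 8 * K + 4 * C' ^ 2 := by positivity
    linarith
  have hc0c : K * c0 ≤ 1 / 2 := by
    have h4 : 0 ≤ c0 * (10 + 4 * C' ^ 2) := by positivity
    nlinarith
  refine ⟨c0, hc0pos, ?_⟩
  intro B
  obtain ⟨b, hb⟩ : ∃ b, b = max B 0 := ⟨_, rfl⟩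
  have hb0 : 0 ≤ b := by rw [hb]; exact le_max_right _ _
  obtain ⟨Q2, hQ2⟩ := (Filter.tendsto_atTop.1 (Real.tendsto_log_atTop.comp tendsto_natCast_atTop_atTop)
    (2 * b + 1)).exists_forall_of_atTop
  refine ⟨max Q2 1, ?_⟩
  intro Q hQ k hk hkQ A A' hA hne s hs hsk c hw
  have hkr : (1 : ℝ) ≤ k := by exact_mod_cast hk
  have hk0 : (0 : ℝ) < k := by linarith
  have hs0 : 0 < s := by linarith
  have hQb : Q2 ≤ Q := (le_max_left _ _).trans hQ
  have hQc : 1 ≤ Q := (le_max_right _ _).trans hQ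
  have hlogQ : 2 * b + 1 ≤ Real.log Q := hQ2 Q hQb
  have hlQ0 : 0 < Real.log Q := by linarith
  have hQr : (0 : ℝ) < Q := by exact_mod_cast hQc
  have hl3 : 1 ≤ Real.log 3 := by
    rw [Real.le_log_iff_exp_le (by norm_num)]
    have := Real.exp_one_lt_d9
    linarith
  have hlk0 : 0 ≤ Real.log (k : ℝ) := Real.log_nonneg hkr
  have hl3k : Real.log (3 * (k : ℝ)) = Real.log 3 + Real.log k := Real.log_mul (by norm_num) hk0.ne'
  have hkQ' : (k : ℝ) * Real.log (3 * k) ≤ (1 / 10) * Real.log Q :=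
    hkQ.trans (mul_le_mul_of_nonneg_right hc0b hlQ0.le)
  -- `n1`
  obtain ⟨n1, hn1⟩ : ∃ n1, n1 = ⌊(k : ℝ) / s⌋₊ := ⟨_, rfl⟩
  have hn1b : (n1 : ℝ) ≤ k / s := by rw [hn1]; exact Nat.floor_le (by positivity)
  have hn1c : n1 ≤ k := by
    have : (n1 : ℝ) ≤ k := hn1b.trans (div_le_self hk0.le hs)
    exact_mod_cast this
  have hn1d : 10 + 8 * K + 4 * C' ^ 2 < n1 + 1 := by
    have h4 : (k : ℝ) / s < n1 + 1 := by rw [hn1]; exact Nat.lt_floor_add_one _
    refine lt_of_le_of_lt ?_ h4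
    rw [le_div_iff₀ hs0]
    have h5 : (10 + 8 * K + 4 * C' ^ 2) * s ≤ (10 + 8 * K + 4 * C' ^ 2) * (c0 * k) :=
      mul_le_mul_of_nonneg_left hsk hden.le
    have h6 : (10 + 8 * K + 4 * C' ^ 2) * (c0 * k) = (c0 * (10 + 8 * K + 4 * C' ^ 2)) * k := by ring
    rw [h6, hc0a, one_mul] at h5
    exact h5
  have hn1e : 4 * C' ^ 2 < (n1 : ℝ) := by linarith
  have hn1f : (1 : ℝ) < n1 := by
    have : 0 ≤ 4 * C' ^ 2 := by positivity
    linarith
  have hn1a : 1 ≤ n1 := by
    have : (1 : ℕ) < n1 := by exact_mod_cast hn1f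
    omega
  have hn10 : (0 : ℝ) < n1 := by linarith
  obtain ⟨M, hM⟩ : ∃ M, M = Q.factorial := ⟨_, rfl⟩
  have hM0 : 0 < M := by rw [hM]; exact Nat.factorial_pos _
  have hMr : (0 : ℝ) < M := by exact_mod_cast hM0
  have hdM : ∀ d, 1 ≤ d → d ≤ Q → d ∣ M := fun d h1 h2 => by rw [hM]; exact Nat.dvd_factorial (by omega) h2
  have hdN : ∀ d ∈ Icc 1 Q, d ∣ M := fun d hd => by
    rw [mem_Icc] at hd
    exact hdM d hd.1 hd.2
  -- the bad primes
  obtain ⟨W, hW⟩ : ∃ W : Fin k × Fin k → ℕ, W = fun z => (A z.1 * A' z.2 - A z.2 * A' z.1) +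
    (A z.2 * A' z.1 - A z.1 * A' z.2) := ⟨_, rfl⟩
  have hQB : ∀ i, (A i : ℝ) ≤ Real.exp (b * Real.log Q) ∧ (A' i : ℝ) ≤ Real.exp (b * Real.log Q) := by
    intro i
    have h4 : (Q : ℝ) ^ B ≤ Real.exp (b * Real.log Q) := by
      rw [Real.rpow_def_of_pos hQr, mul_comm]
      apply Real.exp_le_exp.2
      apply mul_le_mul_of_nonneg_right _ hlQ0.le
      rw [hb]
      exact le_max_left _ _
    exact ⟨(hA i).2.1.trans h4, (hA i).2.2.trans h4⟩
  have hprod : ∀ i j, ((A i * A' j : ℕ) : ℝ) ≤ Real.exp (2 * b * Real.log Q) := by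
    intro i j
    have e : Real.exp (2 * b * Real.log Q) = Real.exp (b * Real.log Q) * Real.exp (b * Real.log Q) := by
      rw [← Real.exp_add]
      congr 1
      ring
    rw [e]
    push_cast
    exact mul_le_mul (hQB i).1 (hQB j).2 (Nat.cast_nonneg _) (Real.exp_pos _).le
  have hWpos : ∀ z : Fin k × Fin k, z.1 ≠ z.2 → 0 < W z := by
    intro z hz
    have h4 := hne z.1 z.2 hz
    rw [hW]
    show 0 < (A z.1 * A' z.2 - A z.2 * A' z.1) + (A z.2 * A' z.1 - A z.1 * A' z.2)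
    omega
  have hWlog : ∀ z : Fin k × Fin k, z.1 ≠ z.2 → Real.log (W z) ≤ 2 * b * Real.log Q := by
    intro z hz
    rw [Real.log_le_iff_le_exp (by exact_mod_cast hWpos z hz)]
    have h4 : W z ≤ A z.1 * A' z.2 ∨ W z ≤ A z.2 * A' z.1 := by
      rw [hW]
      show (A z.1 * A' z.2 - A z.2 * A' z.1) + (A z.2 * A' z.1 - A z.1 * A' z.2) ≤ _ ∨
        (A z.1 * A' z.2 - A z.2 * A' z.1) + (A z.2 * A' z.1 - A z.1 * A' z.2) ≤ _
      omega
    rcases h4 with h4 | h4
    · exact le_trans (by exact_mod_cast h4) (hprod z.1 z.2)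
    · exact le_trans (by exact_mod_cast h4) (hprod z.2 z.1)
  obtain ⟨D, hD⟩ : ∃ D, D = (∏ i, A i) * ∏ z ∈ (univ : Finset (Fin k × Fin k)).filter (fun z => z.1 ≠ z.2), W z :=
    ⟨_, rfl⟩
  have hD1 : 0 < ∏ i, A i := prod_pos fun i _ => (hA i).1
  have hD2 : 0 < ∏ z ∈ (univ : Finset (Fin k × Fin k)).filter (fun z => z.1 ≠ z.2), W z := by
    refine prod_pos fun z hz => ?_
    rw [mem_filter] at hz
    exact hWpos z hz.2
  have hD0 : 0 < D := by rw [hD]; exact Nat.mul_pos hD1 hD2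
  have hlD : Real.log D ≤ 3 * (k : ℝ) ^ 2 * b * Real.log Q := by
    have h4 : Real.log ((∏ i, A i : ℕ) : ℝ) ≤ k * (b * Real.log Q) := by
      push_cast
      rw [Real.log_prod (by
        intro i _
        have := (hA i).1
        exact_mod_cast this.ne')]
      have h5 : ∀ i ∈ (univ : Finset (Fin k)), Real.log (A i : ℝ) ≤ b * Real.log Q := by
        intro i _
        rw [Real.log_le_iff_le_exp (by exact_mod_cast (hA i).1)]
        exact (hQB i).1
      refine (sum_le_sum h5).trans ?_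
      rw [sum_const, nsmul_eq_mul, card_univ, Fintype.card_fin]
    have h6 : Real.log ((∏ z ∈ (univ : Finset (Fin k × Fin k)).filter (fun z => z.1 ≠ z.2), W z : ℕ) : ℝ) ≤
        (k : ℝ) ^ 2 * (2 * b * Real.log Q) := by
      push_cast
      rw [Real.log_prod (by
        intro z hz
        rw [mem_filter] at hz
        have := hWpos z hz.2
        exact_mod_cast this.ne')]
      have h5 : ∀ z ∈ (univ : Finset (Fin k × Fin k)).filter (fun z => z.1 ≠ z.2),
          Real.log (W z : ℝ) ≤ 2 * b * Real.log Q := by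
        intro z hz
        rw [mem_filter] at hz
        exact hWlog z hz.2
      refine (sum_le_sum h5).trans ?_
      rw [sum_const, nsmul_eq_mul]
      apply mul_le_mul_of_nonneg_right _ (by positivity)
      have h7 : ((univ : Finset (Fin k × Fin k)).filter (fun z => z.1 ≠ z.2)).card ≤ k ^ 2 := by
        refine (card_filter_le _ _).trans ?_
        rw [card_univ, Fintype.card_prod, Fintype.card_fin, sq]
      exact_mod_cast h7
    rw [hD]
    rw [Nat.cast_mul, Real.log_mul (by exact_mod_cast hD1.ne') (by exact_mod_cast hD2.ne')]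
    have h8 : (k : ℝ) * (b * Real.log Q) ≤ (k : ℝ) ^ 2 * (b * Real.log Q) := by
      apply mul_le_mul_of_nonneg_right _ (by positivity)
      nlinarith
    nlinarith
  obtain ⟨Bd, hBd⟩ : ∃ Bd : Finset ℕ, Bd = ((Icc 1 Q).filter Nat.Prime).filter
    (fun p => p ∣ D ∧ Real.log Q < k * Real.log p) := ⟨_, rfl⟩
  have hBdp : ∀ p ∈ Bd, (p.Prime ∧ p ∣ D) ∧ Real.log Q < k * Real.log p := fun p hp => by
    rw [hBd, mem_filter, mem_filter] at hp
    exact ⟨⟨hp.1.2, hp.2.1⟩, hp.2.2⟩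
  have hbad := FINV_bad hk hb0 hkQ' hD0 hlD hlogQ Bd hBdp
  obtain ⟨bs, hbs⟩ : ∃ bs, bs = ∑ p ∈ Bd, 1 / (p : ℝ) := ⟨_, rfl⟩
  rw [← hbs] at hbad
  have hbs0 : 0 ≤ bs := by
    rw [hbs]
    exact sum_nonneg fun p _ => by positivity
  -- the good primes
  obtain ⟨P, hP⟩ : ∃ P : Finset ℕ, P = ((Icc 1 Q).filter Nat.Prime).filter (fun p => p ∉ Bd ∧
    ((1 : ℕ) : ℝ) * Real.log Q < k * Real.log p ∧ FIN_blk k Q p < n1) := ⟨_, rfl⟩
  have hP' : ∀ p ∈ P, p.Prime ∧ 1 ≤ p ∧ p ≤ Q ∧ p ∉ Bd ∧ ((1 : ℕ) : ℝ) * Real.log Q < k * Real.log p ∧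
      FIN_blk k Q p < n1 := by
    intro p hp
    rw [hP, mem_filter, mem_filter, mem_Icc] at hp
    exact ⟨hp.1.2, hp.1.1.1, hp.1.1.2, hp.2.1, hp.2.2.1, hp.2.2.2⟩
  have hPD : ∀ p ∈ P, ¬ p ∣ D := by
    intro p hp hpD
    obtain ⟨a1, a2, a3, a4, a5, a6⟩ := hP' p hp
    apply a4
    rw [hBd, mem_filter, mem_filter, mem_Icc]
    refine ⟨⟨⟨a2, a3⟩, a1⟩, hpD, ?_⟩
    rw [Nat.cast_one, one_mul] at a5
    exact a5
  have hPlog : ∀ p ∈ P, Real.log p ≤ Real.log Q := fun p hp => by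
    have := hP' p hp
    exact Real.log_le_log (by exact_mod_cast this.2.1) (by exact_mod_cast this.2.2.1)
  have hPspec : ∀ p ∈ P, _ := fun p hp => FIN_blk_spec (m := 1) (n := k) (Q := Q) (p := p) one_pos hlQ0
    (hP' p hp).2.2.2.2.1 (hPlog p hp)
  have hPY : ∀ p ∈ P, p ∈ PY Q (1 / s) := by
    intro p hp
    obtain ⟨a1, a2, a3, a4, a5, a6⟩ := hP' p hp
    obtain ⟨b1, b2, b3, b4⟩ := hPspec p hp
    have hp0 : (0 : ℝ) < p := by exact_mod_cast a2
    unfold PY
    rw [mem_filter, mem_Icc]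
    refine ⟨⟨a2, a3⟩, a1, ?_⟩
    rw [← Real.log_le_log_iff hp0 (Real.rpow_pos_of_pos hQr _), Real.log_rpow hQr]
    have h5 : (FIN_blk k Q p : ℝ) + 1 ≤ n1 := by exact_mod_cast a6
    have h6 : (k : ℝ) * Real.log p ≤ k * (1 / s * Real.log Q) := by
      calc (k : ℝ) * Real.log p ≤ ((FIN_blk k Q p : ℝ) + 1) * Real.log Q := b4
        _ ≤ (k / s) * Real.log Q := mul_le_mul_of_nonneg_right (h5.trans hn1b) hlQ0.le
        _ = k * (1 / s * Real.log Q) := by ring
    exact le_of_mul_le_mul_left h6 hk0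
  obtain ⟨q, hq⟩ : ∃ q : Fin P.card → ℕ, q = P.orderEmbOfFin rfl := ⟨_, rfl⟩
  have hqmem : ∀ i, q i ∈ P := fun i => by rw [hq]; exact P.orderEmbOfFin_mem rfl i
  have hqmono : StrictMono q := by rw [hq]; exact (P.orderEmbOfFin rfl).strictMono
  have hqsum : ∀ (g : ℕ → ℝ), ∑ i, g (q i) = ∑ p ∈ P, g p := by
    intro g
    have h1 : P = univ.image q := by
      rw [hq]
      exact (Finset.image_orderEmbOfFin_univ P rfl).symm
    conv_rhs => rw [h1]
    rw [sum_image (fun a _ b _ hab => hqmono.injective hab)]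
  have hqk : ∀ i, k < q i := by
    intro i
    have h4 := (hP' _ (hqmem i)).2.2.2.2.1
    rw [Nat.cast_one, one_mul] at h4
    have h5 : (k : ℝ) * Real.log (3 * k) < k * Real.log (q i) := by
      refine lt_of_le_of_lt hkQ' (lt_of_le_of_lt ?_ h4)
      linarith
    have h6 : Real.log (3 * (k : ℝ)) < Real.log (q i) := lt_of_mul_lt_mul_left h5 hk0.le
    have h7 : (0 : ℝ) < q i := by exact_mod_cast (hP' _ (hqmem i)).1.pos
    have h8 := (Real.log_lt_log_iff (by linarith) h7).1 h6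
    exact_mod_cast (by linarith : (k : ℝ) < q i)
  have hqk' : ∀ i, (k : ℝ) < (q i : ℝ) := fun i => by exact_mod_cast hqk i
  -- the sites
  obtain ⟨hs', hsd⟩ := FINV_crt q A A' (fun i a => by
    rw [Nat.coprime_comm, (hP' _ (hqmem i)).1.coprime_iff_not_dvd]
    intro h4
    apply hPD _ (hqmem i)
    rw [hD]
    exact (h4.trans (dvd_prod_of_mem A (mem_univ a))).mul_right _) (fun i => (hP' _ (hqmem i)).1.one_lt)
  -- the block sums
  obtain ⟨η, hη⟩ : ∃ η : ℕ → ℝ, η = fun j : ℕ => K * k / Real.log Q * (1 / (j : ℝ)) + bs := ⟨_, rfl⟩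
  have hη0 : ∀ j, 0 ≤ η j := by
    intro j
    rw [hη]
    show 0 ≤ K * k / Real.log Q * (1 / (j : ℝ)) + bs
    have hKk : 0 ≤ K * k / Real.log Q := by positivity
    positivity
  have hηs : ∑ j ∈ Ico 1 n1, η j ≤ 1 := by
    rw [hη, sum_add_distrib, ← mul_sum, sum_const, nsmul_eq_mul, Nat.card_Ico]
    have h4 := FINV_harm hn1a
    have h5 : Real.log (n1 : ℝ) ≤ Real.log k := Real.log_le_log hn10 (by exact_mod_cast hn1c)
    have h6 : K * k / Real.log Q * ∑ j ∈ Ico 1 n1, 1 / (j : ℝ) ≤ 1 / 2 := by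
      calc K * k / Real.log Q * ∑ j ∈ Ico 1 n1, 1 / (j : ℝ) ≤ K * k / Real.log Q * Real.log (3 * k) := by
            apply mul_le_mul_of_nonneg_left _ (by positivity)
            linarith
        _ = K * (k * Real.log (3 * k)) / Real.log Q := by ring
        _ ≤ K * (c0 * Real.log Q) / Real.log Q := by
            apply div_le_div_of_nonneg_right _ hlQ0.le
            exact mul_le_mul_of_nonneg_left hkQ (by linarith)
        _ = K * c0 := by field_simp
        _ ≤ 1 / 2 := hc0c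
    have h7 : ((n1 - 1 : ℕ) : ℝ) * bs ≤ k * bs := by
      apply mul_le_mul_of_nonneg_right _ hbs0
      exact_mod_cast (by omega : n1 - 1 ≤ k)
    linarith
  have hblock : ∀ j, 1 ≤ j → j < n1 → Real.log (((j : ℝ) + 1) / j) - η j ≤
      ∑ i ∈ univ.filter (fun i => FIN_blk k Q (q i) = j), 1 / (q i : ℝ) := by
    intro j hj1 hj2
    have hjr : (1 : ℝ) ≤ j := by exact_mod_cast hj1
    have hj0 : (0 : ℝ) < j := by linarith
    obtain ⟨x, hx⟩ : ∃ x, x = Real.log Q / k := ⟨_, rfl⟩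
    have hx0 : 0 < x := by rw [hx]; positivity
    have hxk : k * x = Real.log Q := by rw [hx]; field_simp
    have hx3 : 10 ≤ x := by
      have h4 : (k : ℝ) * 10 ≤ k * x := by rw [hxk]; nlinarith
      exact le_of_mul_le_mul_left h4 hk0
    have h4 := h3 (Real.exp (j * x)) (Real.exp ((j + 1) * x)) (by
      have h5 := Real.add_one_le_exp (j * x)
      nlinarith) (Real.exp_le_exp.2 (by nlinarith))
    rw [Real.log_exp, Real.log_exp] at h4
    have e1 : ((j : ℝ) + 1) * x / (j * x) = ((j : ℝ) + 1) / j := by field_simp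
    have e2 : K / (j * x) = K * k / Real.log Q * (1 / (j : ℝ)) := by
      rw [← hxk]
      field_simp
    rw [e1, e2] at h4
    have h5 : ∑ i ∈ univ.filter (fun i => FIN_blk k Q (q i) = j), 1 / (q i : ℝ) =
        ∑ p ∈ P.filter (fun p => FIN_blk k Q p = j), 1 / (p : ℝ) := by
      rw [sum_filter, sum_filter, ← hqsum (fun p => if FIN_blk k Q p = j then 1 / (p : ℝ) else 0)]
    rw [h5]
    have h6 : ∑ p ∈ (Icc 1 ⌊Real.exp ((j + 1) * x)⌋₊).filter (fun p : ℕ => p.Prime ∧ Real.exp (j * x) < p),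
        1 / (p : ℝ) ≤ ∑ p ∈ P.filter (fun p => FIN_blk k Q p = j) ∪ Bd, 1 / (p : ℝ) := by
      apply sum_le_sum_of_subset_of_nonneg _ (fun p _ _ => by positivity)
      intro p hp
      rw [mem_filter, mem_Icc] at hp
      obtain ⟨⟨b1, b2⟩, b3, b4⟩ := hp
      have hp0 : (0 : ℝ) < p := by exact_mod_cast b3.pos
      have b5 : (p : ℝ) ≤ Real.exp ((j + 1) * x) := (Nat.le_floor_iff (Real.exp_pos _).le).1 b2
      have b6 : Real.log p ≤ (j + 1) * x := (Real.log_le_iff_le_exp hp0).2 b5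
      have b7 : j * x < Real.log p := (Real.lt_log_iff_exp_lt hp0).2 b4
      have b8 : (j : ℝ) * Real.log Q < k * Real.log p := by
        rw [← hxk]
        have := mul_lt_mul_of_pos_left b7 hk0
        linarith
      have b9 : (k : ℝ) * Real.log p ≤ ((j : ℝ) + 1) * Real.log Q := by
        rw [← hxk]
        have := mul_le_mul_of_nonneg_left b6 hk0.le
        linarith
      have b10 : Real.log p ≤ Real.log Q := by
        have h7 : ((j : ℝ) + 1) * Real.log Q ≤ k * Real.log Q := by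
          apply mul_le_mul_of_nonneg_right _ hlQ0.le
          exact_mod_cast (by omega : j + 1 ≤ k)
        exact le_of_mul_le_mul_left (b9.trans h7) hk0
      have b11 : p ≤ Q := by
        have := (Real.log_le_log_iff hp0 hQr).1 b10
        exact_mod_cast this
      have b12 : Real.log Q < k * Real.log p := by nlinarith
      rw [mem_union]
      by_cases hpD : p ∣ D
      · right
        rw [hBd, mem_filter, mem_filter, mem_Icc]
        exact ⟨⟨⟨b1, b11⟩, b3⟩, hpD, b12⟩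
      · left
        have hbj := FIN_blk_unique hlQ0 b8 b9
        rw [mem_filter, hP, mem_filter, mem_filter, mem_Icc]
        refine ⟨⟨⟨⟨b1, b11⟩, b3⟩, ?_, ?_, by omega⟩, hbj⟩
        · intro h8
          exact hpD (hBdp p h8).1.2
        · rw [Nat.cast_one, one_mul]
          exact b12
    have h7 : ∑ p ∈ P.filter (fun p => FIN_blk k Q p = j) ∪ Bd, 1 / (p : ℝ) ≤
        ∑ p ∈ P.filter (fun p => FIN_blk k Q p = j), 1 / (p : ℝ) + bs := by
      rw [hbs, ← sum_union_inter]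
      have : 0 ≤ ∑ p ∈ P.filter (fun p => FIN_blk k Q p = j) ∩ Bd, 1 / (p : ℝ) :=
        sum_nonneg fun p _ => by positivity
      linarith
    rw [hη]
    show Real.log (((j : ℝ) + 1) / j) - (K * k / Real.log Q * (1 / (j : ℝ)) + bs) ≤ _
    linarith
  -- the model
  obtain ⟨f, hf1, hf2, hf3, hf4, hf5⟩ := h2 P.card k hs' q (fun i => FIN_blk k Q (q i)) (k * 1) Q M
    (fun d x => c d (x % d))
    hqmono.injective (fun i => ⟨(hP' _ (hqmem i)).1, hqk i⟩)
    (fun i x a a' h4 h5 => by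
      by_contra hab
      rw [hsd] at h4 h5
      apply hPD _ (hqmem i)
      have h6 : q i ∣ W (a, a') := by
        have h7 : ((q i : ℕ) : ℤ) ∣ (A a : ℤ) * x + A' a := by exact_mod_cast h4
        have h8 : ((q i : ℕ) : ℤ) ∣ (A a' : ℤ) * x + A' a' := by exact_mod_cast h5
        have h9 : ((q i : ℕ) : ℤ) ∣ (A a : ℤ) * A' a' - A a' * A' a := by
          have h10 := dvd_sub (h8.mul_left (A a : ℤ)) (h7.mul_left (A a' : ℤ))
          have e : (A a : ℤ) * ((A a' : ℤ) * x + A' a') - (A a' : ℤ) * ((A a : ℤ) * x + A' a) =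
              (A a : ℤ) * A' a' - A a' * A' a := by ring
          rwa [e] at h10
        have h11 : ((W (a, a') : ℕ) : ℤ) = |(A a : ℤ) * A' a' - A a' * A' a| := by
          rw [hW]
          show (((A a * A' a' - A a' * A' a) + (A a' * A' a - A a * A' a') : ℕ) : ℤ) = _
          rcases le_total (A a * A' a') (A a' * A' a) with h12 | h12
          · have h13 : ((A a * A' a' : ℕ) : ℤ) ≤ ((A a' * A' a : ℕ) : ℤ) := by exact_mod_cast h12
            rw [Nat.sub_eq_zero_of_le h12, zero_add, Nat.cast_sub h12]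
            push_cast at h13 ⊢
            rw [abs_of_nonpos (by linarith)]
            ring
          · have h13 : ((A a' * A' a : ℕ) : ℤ) ≤ ((A a * A' a' : ℕ) : ℤ) := by exact_mod_cast h12
            rw [Nat.sub_eq_zero_of_le h12, add_zero, Nat.cast_sub h12]
            push_cast at h13 ⊢
            rw [abs_of_nonneg (by linarith)]
        have h12 : ((q i : ℕ) : ℤ) ∣ ((W (a, a') : ℕ) : ℤ) := by
          rw [h11]
          exact (dvd_abs _ _).2 h9
        exact_mod_cast h12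
      rw [hD]
      apply Dvd.dvd.mul_left
      refine h6.trans (dvd_prod_of_mem W ?_)
      rw [mem_filter]
      exact ⟨mem_univ _, hab⟩) hM0 (fun i => hdM _ (hP' _ (hqmem i)).2.1 (hP' _ (hqmem i)).2.2.1)
    (fun d hd => ⟨fun x => by simp only [Nat.add_mod_right], hdN d hd⟩)
    (fun d hd => by
      rw [mem_Icc] at hd
      obtain ⟨T, hT⟩ : ∃ T : Finset (Fin P.card), T = univ.filter (fun i => q i ∣ d) := ⟨_, rfl⟩
      rw [← hT, mul_one]
      have h1 : ∑ i ∈ T, Real.log (q i) ≤ Real.log d := by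
        have h2 : ∑ i ∈ T, Real.log (q i) = ∑ p ∈ T.image q, Real.log p := by
          rw [sum_image (fun a _ b _ hab => hqmono.injective hab)]
        rw [h2]
        refine FIN_lg (by omega) ?_
        intro p hp
        rw [mem_image] at hp
        obtain ⟨i, hi, rfl⟩ := hp
        rw [hT, mem_filter] at hi
        exact ⟨(hP' _ (hqmem i)).1, hi.2⟩
      have h3 : Real.log d ≤ Real.log Q := Real.log_le_log (by exact_mod_cast hd.1) (by exact_mod_cast hd.2)
      have h4 : (∑ i ∈ T, (FIN_blk k Q (q i) : ℝ)) * Real.log Q ≤ k * Real.log Q := by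
        rw [sum_mul]
        refine (sum_le_sum fun i _ => (hPspec _ (hqmem i)).2.2.1.le).trans ?_
        rw [← mul_sum]
        exact mul_le_mul_of_nonneg_left (h1.trans h3) hk0.le
      have h5 := le_of_mul_le_mul_right h4 hlQ0
      exact_mod_cast h5)
  have hmu := FIN_muP_nonneg (N := P.card) (k := k) (q := fun i => (q i : ℝ)) hqk'
  have hmean : (∑ x ∈ range M, ∑ d ∈ Icc 1 Q, c d (x % d)) / (M : ℝ) = mn Q c := by
    rw [hM]
    exact FIN_mean Q c
  rw [hmean] at hf4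
  by_contra hpos
  push Not at hpos
  have hb5 := h1 k 1 n1 P.card (fun i => (q i : ℝ)) (fun i => FIN_blk k Q (q i)) η f
    hk le_rfl hn1a (by rw [mul_one]; exact hn1c)
    (fun i i' hii => FIN_blk_mono hlQ0 (hP' _ (hqmem i)).1.pos (hqmono.monotone hii))
    (fun i => ⟨(hPspec _ (hqmem i)).1, (hP' _ (hqmem i)).2.2.2.2.2⟩) hqk' hη0 hηs hblock hf1
    (by rw [hf4]; exact hpos)
  have e2 : C' * (((k : ℝ) * ((1 : ℕ) : ℝ)) / n1) * (1 + Real.log ((n1 : ℝ) / ((1 : ℕ) : ℝ))) =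
      k * (C' * (1 + Real.log n1) / n1) := by
    rw [Nat.cast_one, mul_one, div_one]
    ring
  rw [e2] at hb5
  have hfneg : ∀ γ, (alive γ P.card).card < k → f γ ≤ 0 := by
    intro γ hγ
    have h6 : ∃ a i, γ i = some a := by
      by_contra h7
      push Not at h7
      have h8 : alive γ P.card = univ := by
        unfold alive
        ext a
        simp only [mem_filter, mem_univ, true_and, iff_true]
        intro i _
        exact h7 a i
      rw [h8, card_univ, Fintype.card_fin] at hγ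
      omega
    obtain ⟨a, i, hai⟩ := h6
    refine hf3 γ 0 (fun x hx => hw x ⟨q i, hPY _ (hqmem i), a, ?_⟩)
    rw [← hsd]
    exact (hx i a).1 hai
  obtain ⟨S, hS⟩ : ∃ S, S = ∑ γ, muP (fun i => (q i : ℝ)) γ * max (f γ) 0 := ⟨_, rfl⟩
  have hSpos : 0 < S := by
    refine lt_of_lt_of_le hpos ?_
    rw [← hf4, hS]
    exact sum_le_sum fun γ _ => mul_le_mul_of_nonneg_left (le_max_left _ _) (hmu γ)
  have h6 : k * S ≤ ∑ γ, muP (fun i => (q i : ℝ)) γ * max (f γ) 0 * ((alive γ P.card).card : ℝ) := by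
    rw [hS, mul_sum]
    apply sum_le_sum
    intro γ _
    have h7 : 0 ≤ muP (fun i => (q i : ℝ)) γ * max (f γ) 0 := mul_nonneg (hmu γ) (le_max_right _ _)
    rcases lt_or_ge (alive γ P.card).card k with hlt | hge
    · rw [max_eq_right (hfneg γ hlt)]
      simp
    · rw [mul_comm]
      exact mul_le_mul_of_nonneg_left (by exact_mod_cast hge) h7
  rw [← hS] at hb5
  have h7 : (k : ℝ) ≤ k * (C' * (1 + Real.log n1) / n1) := le_of_mul_le_mul_right (h6.trans hb5) hSpos
  have h8 : 1 ≤ C' * (1 + Real.log n1) / n1 := by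
    have : (k : ℝ) * 1 ≤ k * (C' * (1 + Real.log n1) / n1) := by rw [mul_one]; exact h7
    exact le_of_mul_le_mul_left this hk0
  rw [le_div_iff₀ hn10, one_mul] at h8
  exact absurd h8 (not_le.2 (FINV_big hC' hn1e))

end Pool.Agent.N422.UF
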