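import Pool.Agent.N422.UF.Stm
import Pool.Agent.Erdos456.Mertens

set_option autoImplicit false

/-! Mertens between two points (helper91, for project UF of helper422) -/

namespace Pool.Agent.N422.UF

open Finset Pool.Agent.N422.NW Pool.Agent.N422.SL Pool.Agent.N422.WS Pool.Agent.N422.CD
open Pool.Agent.Erdos456.Mert (PP AA inv_eq mertens_log)

theorem MERT_log_pos {n : ℕ} (hn : 2 ≤ n) : 0 < Real.log n :=
  Real.log_pos (by exact_mod_cast (by omega : 1 < n))

theorem MERT_log_mono {m n : ℕ} (hm : 2 ≤ m) (hn : m ≤ n) : Real.log m ≤ Real.log n :=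
  Real.log_le_log (by exact_mod_cast (by omega : 0 < m)) (by exact_mod_cast hn)

/-- one term of the sum by parts -/
theorem MERT_term {m n : ℕ} (hm : 2 ≤ m) (hmn : m ≤ n) :
    Real.log (Real.log ((n + 1 : ℕ) : ℝ)) - Real.log (Real.log n) - (1 / (n : ℝ) ^ 2) / Real.log m ^ 2 ≤
      Real.log n * (1 / Real.log n - 1 / Real.log ((n + 1 : ℕ) : ℝ)) := by
  have hn : 2 ≤ n := hm.trans hmn
  have hy := MERT_log_pos hn
  have hx := MERT_log_pos (n := n + 1) (by omega)
  have hm0 := MERT_log_pos hm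
  have hmy := MERT_log_mono hm hmn
  set y := Real.log (n : ℝ) with hy'
  set x := Real.log ((n + 1 : ℕ) : ℝ) with hx'
  have hyx : y ≤ x := Real.log_le_log (by exact_mod_cast (by omega : 0 < n)) (by exact_mod_cast Nat.le_succ n)
  have e1 : y * (1 / y - 1 / x) = 1 - y / x := by
    field_simp
  have e2 : Real.log x - Real.log y = Real.log (x / y) := by
    rw [Real.log_div hx.ne' hy.ne']
  rw [e1, e2]
  have hn0 : (0 : ℝ) < n := by exact_mod_cast (by omega : 0 < n)
  have h1 := Real.log_le_sub_one_of_pos (div_pos hx hy)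
  have h2 : x - y ≤ 1 / n := by
    have : x - y = Real.log (((n + 1 : ℕ) : ℝ) / n) := by
      rw [Real.log_div (by positivity) hn0.ne']
    rw [this]
    have h3 := Real.log_le_sub_one_of_pos (div_pos (by positivity : (0 : ℝ) < ((n + 1 : ℕ) : ℝ)) hn0)
    have h4 : ((n + 1 : ℕ) : ℝ) / n - 1 = 1 / n := by
      push_cast; field_simp; ring
    linarith
  have h3 : x / y - 1 - (1 - y / x) = (x - y) ^ 2 / (x * y) := by
    field_simp
  have h4 : (x - y) ^ 2 / (x * y) ≤ (1 / (n : ℝ) ^ 2) / Real.log m ^ 2 := by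
    have h5 : (x - y) ^ 2 ≤ 1 / (n : ℝ) ^ 2 := by
      have : (x - y) ^ 2 ≤ (1 / (n : ℝ)) ^ 2 := pow_le_pow_left₀ (by linarith) h2 2
      rw [div_pow, one_pow] at this; exact this
    have h6 : Real.log m ^ 2 ≤ x * y := by
      have : Real.log m ≤ x := hmy.trans hyx
      nlinarith
    exact div_le_div₀ (by positivity) h5 (by positivity) h6
  linarith

/-- the theorem for natural numbers -/
theorem MERT_nat : ∃ K : ℝ, 0 ≤ K ∧ ∀ m N : ℕ, 2 ≤ m → m ≤ N →
    Real.log (Real.log N) - Real.log (Real.log m) - K / Real.log m ≤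
      ∑ p ∈ PP N, (1 : ℝ) / p - ∑ p ∈ PP m, (1 : ℝ) / p := by
  obtain ⟨C, hC⟩ := mertens_log
  have hC0 : 0 ≤ C := (abs_nonneg _).trans (hC 1 le_rfl)
  have hs : Summable (fun n : ℕ => 1 / (n : ℝ) ^ 2) := Real.summable_one_div_nat_pow.2 (by norm_num)
  set K : ℝ := ∑' n : ℕ, 1 / (n : ℝ) ^ 2 with hK
  have hK0 : 0 ≤ K := tsum_nonneg fun n => by positivity
  have hl2 : (0 : ℝ) < Real.log 2 := Real.log_pos (by norm_num)
  refine ⟨2 * C + K / Real.log 2, by positivity, fun m N hm hmN => ?_⟩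
  have hN : 2 ≤ N := hm.trans hmN
  have hm0 := MERT_log_pos hm
  have hN0 := MERT_log_pos hN
  have hA : ∀ n : ℕ, 2 ≤ n → |AA n - Real.log n| ≤ C := fun n hn => hC n (by omega)
  set d : ℕ → ℝ := fun n => 1 / Real.log n - 1 / Real.log ((n + 1 : ℕ) : ℝ) with hd
  have hd0 : ∀ n : ℕ, 2 ≤ n → 0 ≤ d n := by
    intro n hn
    have h1 := MERT_log_pos hn
    have h2 : Real.log n ≤ Real.log ((n + 1 : ℕ) : ℝ) := MERT_log_mono hn (Nat.le_succ n)
    have := one_div_le_one_div_of_le h1 h2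
    simp only [hd]; linarith
  have hdsum : ∑ n ∈ Finset.Ico m N, d n = 1 / Real.log m - 1 / Real.log N := by
    have := Finset.sum_Ico_sub (fun n : ℕ => -(1 / Real.log (n : ℝ))) hmN
    have h2 : ∑ n ∈ Finset.Ico m N, d n =
        ∑ i ∈ Finset.Ico m N, (-(1 / Real.log ((i + 1 : ℕ) : ℝ)) - -(1 / Real.log (i : ℝ))) := by
      refine Finset.sum_congr rfl fun n _ => ?_
      simp only [hd]; ring
    rw [h2, this]; ring
  have e1 : ∑ p ∈ PP N, (1 : ℝ) / p - ∑ p ∈ PP m, (1 : ℝ) / p =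
      AA N / Real.log N - AA m / Real.log m + ∑ n ∈ Finset.Ico m N, AA n * d n := by
    rw [inv_eq N hN, inv_eq m hm, ← Finset.sum_Ico_consecutive _ hm hmN]
    ring
  rw [e1]
  have h1 : 1 - C / Real.log N ≤ AA N / Real.log N := by
    have := (abs_le.1 (hA N hN)).1
    rw [le_div_iff₀ hN0, sub_mul, div_mul_cancel₀ _ hN0.ne']
    linarith
  have h2 : AA m / Real.log m ≤ 1 + C / Real.log m := by
    have := (abs_le.1 (hA m hm)).2
    rw [div_le_iff₀ hm0, add_mul, div_mul_cancel₀ _ hm0.ne']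
    linarith
  have h3 : ∑ n ∈ Finset.Ico m N, Real.log n * d n - C * (1 / Real.log m - 1 / Real.log N) ≤
      ∑ n ∈ Finset.Ico m N, AA n * d n := by
    rw [← hdsum, Finset.mul_sum, ← Finset.sum_sub_distrib]
    refine Finset.sum_le_sum fun n hn => ?_
    have hn2 : 2 ≤ n := hm.trans (Finset.mem_Ico.1 hn).1
    have := (abs_le.1 (hA n hn2)).1
    rw [← sub_mul]
    exact mul_le_mul_of_nonneg_right (by linarith) (hd0 n hn2)
  have htel : ∑ n ∈ Finset.Ico m N, (Real.log (Real.log ((n + 1 : ℕ) : ℝ)) - Real.log (Real.log n)) =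
      Real.log (Real.log N) - Real.log (Real.log m) :=
    Finset.sum_Ico_sub (fun n : ℕ => Real.log (Real.log (n : ℝ))) hmN
  have h4 : Real.log (Real.log N) - Real.log (Real.log m) - K / Real.log m ^ 2 ≤
      ∑ n ∈ Finset.Ico m N, Real.log n * d n := by
    have g1 : ∑ n ∈ Finset.Ico m N, (1 / (n : ℝ) ^ 2) / Real.log m ^ 2 ≤ K / Real.log m ^ 2 := by
      rw [← Finset.sum_div]
      exact div_le_div_of_nonneg_right (hs.sum_le_tsum _ fun n _ => by positivity) (by positivity)
    have g2 : ∑ n ∈ Finset.Ico m N, (Real.log (Real.log ((n + 1 : ℕ) : ℝ)) - Real.log (Real.log n) -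
        (1 / (n : ℝ) ^ 2) / Real.log m ^ 2) ≤ ∑ n ∈ Finset.Ico m N, Real.log n * d n :=
      Finset.sum_le_sum fun n hn => MERT_term hm (Finset.mem_Ico.1 hn).1
    rw [Finset.sum_sub_distrib, htel] at g2
    linarith
  have h5 : K / Real.log m ^ 2 ≤ K / Real.log 2 / Real.log m := by
    rw [div_div]
    refine div_le_div_of_nonneg_left hK0 (by positivity) ?_
    have := MERT_log_mono (m := 2) le_rfl hm
    push_cast at this
    rw [sq]
    exact mul_le_mul_of_nonneg_right this hm0.le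
  have h6 : C / Real.log N = C * (1 / Real.log N) := by ring
  have h7 : C / Real.log m = C * (1 / Real.log m) := by ring
  have h8 : (2 * C + K / Real.log 2) / Real.log m = 2 * (C * (1 / Real.log m)) + K / Real.log 2 / Real.log m := by
    ring
  rw [h8]
  rw [h6] at h1
  rw [h7] at h2
  linarith

theorem t_MERT : S_MERT := by
  obtain ⟨K, hK0, hK⟩ := MERT_nat
  refine ⟨2 * K + 3, by linarith, fun a b ha hab => ?_⟩
  have hb : 2 ≤ b := ha.trans hab
  set m : ℕ := ⌊a⌋₊ with hm
  set N : ℕ := ⌊b⌋₊ with hN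
  have hm2 : 2 ≤ m := Nat.le_floor (by exact_mod_cast ha)
  have hmN : m ≤ N := Nat.floor_mono hab
  have hN2 : 2 ≤ N := hm2.trans hmN
  have ha0 : 0 < a := by linarith
  have hb0 : 0 < b := by linarith
  have hma : (m : ℝ) ≤ a := Nat.floor_le ha0.le
  have ham : a < m + 1 := Nat.lt_floor_add_one a
  have hNb : (N : ℝ) ≤ b := Nat.floor_le hb0.le
  have hbN : b < N + 1 := Nat.lt_floor_add_one b
  have hm2r : (2 : ℝ) ≤ m := by exact_mod_cast hm2
  have hN2r : (2 : ℝ) ≤ N := by exact_mod_cast hN2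
  have hlm := MERT_log_pos hm2
  have hlN := MERT_log_pos hN2
  have hla : 0 < Real.log a := Real.log_pos (by linarith)
  have hlb : 0 < Real.log b := Real.log_pos (by linarith)
  have hmono := MERT_log_mono hm2 hmN
  -- the sum
  have hsum : ∑ p ∈ (Icc 1 N).filter (fun p : ℕ => p.Prime ∧ a < p), 1 / (p : ℝ) =
      ∑ p ∈ PP N, (1 : ℝ) / p - ∑ p ∈ PP m, (1 : ℝ) / p := by
    have hsub : PP m ⊆ PP N := by
      intro p hp
      rw [Finset.mem_filter, Finset.mem_Icc] at hp ⊢
      exact ⟨⟨hp.1.1, hp.1.2.trans hmN⟩, hp.2⟩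
    rw [← Finset.sum_sdiff hsub, add_sub_cancel_right]
    refine Finset.sum_congr ?_ fun _ _ => rfl
    ext p
    rw [Finset.mem_filter, Finset.mem_sdiff, Finset.mem_filter, Finset.mem_filter, Finset.mem_Icc, Finset.mem_Icc]
    have hiff : a < p ↔ m < p := (Nat.floor_lt ha0.le).symm
    rw [hiff]
    constructor
    · rintro ⟨⟨h1, h2⟩, h3, h4⟩
      exact ⟨⟨⟨h1, h2⟩, h3⟩, fun h => absurd h.1.2 (by omega)⟩
    · rintro ⟨⟨⟨h1, h2⟩, h3⟩, h4⟩
      refine ⟨⟨h1, h2⟩, h3, ?_⟩
      by_contra h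
      exact h4 ⟨⟨h1, by omega⟩, h3⟩
  rw [hsum]
  refine le_trans ?_ (hK m N hm2 hmN)
  rw [Real.log_div hlb.ne' hla.ne']
  -- from `b` to `N`
  have h1 : Real.log (Real.log b) - Real.log (Real.log N) ≤ 1 / Real.log m := by
    rw [← Real.log_div hlb.ne' hlN.ne']
    have g1 := Real.log_le_sub_one_of_pos (div_pos hlb hlN)
    have g2 : Real.log b - Real.log N ≤ 1 := by
      rw [← Real.log_div hb0.ne' (by positivity)]
      have g3 := Real.log_le_sub_one_of_pos (div_pos hb0 (by positivity : (0 : ℝ) < N))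
      have g4 : b / N ≤ 2 := by
        rw [div_le_iff₀ (by positivity)]
        linarith
      linarith
    have g5 : Real.log b / Real.log N - 1 = (Real.log b - Real.log N) / Real.log N := by
      field_simp
    rw [g5] at g1
    calc Real.log (Real.log b / Real.log N) ≤ (Real.log b - Real.log N) / Real.log N := g1
      _ ≤ 1 / Real.log N := div_le_div_of_nonneg_right g2 hlN.le
      _ ≤ 1 / Real.log m := one_div_le_one_div_of_le hlm hmono
  -- from `m` to `a`
  have h2 : Real.log (Real.log m) ≤ Real.log (Real.log a) :=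
    Real.log_le_log hlm (Real.log_le_log (by linarith) hma)
  have h3 : Real.log a ≤ 2 * Real.log m := by
    have g1 : a ≤ (m : ℝ) ^ 2 := by nlinarith
    have g2 := Real.log_le_log ha0 g1
    rw [Real.log_pow] at g2
    exact_mod_cast g2
  have h4 : 1 / Real.log m ≤ 2 * (1 / Real.log a) := by
    rw [mul_one_div, div_le_div_iff₀ hlm hla]
    linarith
  have h5 : K / Real.log m ≤ 2 * K / Real.log a := by
    have := mul_le_mul_of_nonneg_left h4 hK0
    calc K / Real.log m = K * (1 / Real.log m) := by ring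
      _ ≤ K * (2 * (1 / Real.log a)) := this
      _ = 2 * K / Real.log a := by ring
  have h6 : (2 * K + 3) / Real.log a = 2 * K / Real.log a + 3 * (1 / Real.log a) := by ring
  have h7 : 0 < 1 / Real.log a := by positivity
  rw [h6]
  linarith

end Pool.Agent.N422.UF
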