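import Pool.Agent.N422.UF.Stm
import Pool.Agent.N422.CD.PSR

/-! Project UF: the limit in the model, for real functions, with variable block errors. -/

set_option autoImplicit false

namespace Pool.Agent.N422.UF

open Finset Pool.Agent.N422.NW Pool.Agent.N422.SL Pool.Agent.N422.WS Pool.Agent.N422.CD

theorem t_PSR3 (h1 : CD.S_NWR) (h2 : S_GRON3) : S_PSR3 := by
  obtain ⟨C, hC, hg⟩ := h2
  refine ⟨C, hC, fun k m n1 N q β η f hk hm hmn hnk hβ hβr hq hη hη1 hh hL hpos => ?_⟩
  have hq0 : ∀ i, 0 < q i := fun i => lt_of_le_of_lt (Nat.cast_nonneg k) (hq i)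
  obtain ⟨n, hn⟩ : ∃ n : ℕ, n = k * m := ⟨_, rfl⟩
  have hn0 : 0 < n := by
    rw [hn]
    exact Nat.mul_pos hk hm
  have hmR : (0 : ℝ) < m := by exact_mod_cast hm
  have hnR : (0 : ℝ) < n := by exact_mod_cast hn0
  have hkm : (k * m : ℝ) = n := by
    rw [hn]
    push_cast
    rfl
  rw [← hn] at hL hnk
  rw [hkm]
  have hμ := PS_muP q hq
  obtain ⟨E, hE⟩ : ∃ E : ℝ, E = ∑ γ, muP q γ * max (f γ) 0 := ⟨_, rfl⟩
  have hEpos : 0 < E := by
    refine lt_of_lt_of_le hpos ?_
    rw [hE]
    exact Finset.sum_le_sum fun γ _ => mul_le_mul_of_nonneg_left (le_max_left _ _) (hμ γ)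
  have habs : ∑ γ, muP q γ * |f γ| ≤ 2 * E := by
    have e1 : ∑ γ, muP q γ * |f γ| = 2 * E - ∑ γ, muP q γ * f γ := by
      rw [hE, Finset.mul_sum, ← Finset.sum_sub_distrib]
      refine Finset.sum_congr rfl fun γ _ => ?_
      rcases le_total 0 (f γ) with h | h
      · rw [abs_of_nonneg h, max_eq_left h]
        ring
      · rw [abs_of_nonpos h, max_eq_right h]
        ring
    linarith
  have hlogn : 0 ≤ Real.log ((n1 : ℝ) / m) := by
    apply Real.log_nonneg
    rw [le_div_iff₀ hmR, one_mul]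
    exact_mod_cast hmn
  obtain ⟨R, hR⟩ : ∃ R : ℝ, R = 1 / (8 * (1 + Real.log ((n1 : ℝ) / m))) := ⟨_, rfl⟩
  have hR0 : 0 ≤ R := by
    rw [hR]
    positivity
  have hR8 : R ≤ 1 / 8 := by
    rw [hR]
    exact one_div_le_one_div_of_le (by norm_num) (by linarith)
  have hcosh : ∀ j : ℕ, j < n1 → Real.cosh (j * (1 / (n : ℝ))) ≤ 5 / 3 := by
    intro j hj
    refine le_trans ?_ PSR_cosh
    rw [Real.cosh_le_cosh, abs_of_nonneg (by positivity), abs_of_nonneg (by norm_num),
      mul_one_div, div_le_one hnR]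
    have : j ≤ n := by omega
    exact_mod_cast this
  obtain ⟨a, ha⟩ : ∃ a : ℕ → ℝ, a = fun j => ∑ γ, muP q γ * max (f γ) 0 *
    ((PSab β γ j).card : ℝ) := ⟨_, rfl⟩
  obtain ⟨h, hhd⟩ : ∃ h : ℕ → ℝ, h = fun j => ∑ i ∈ univ.filter (fun i : Fin N => β i = j), 1 / q i :=
    ⟨_, rfl⟩
  have haj : ∀ j, a j = ∑ γ, muP q γ * max (f γ) 0 * ((PSab β γ j).card : ℝ) := fun j => by rw [ha]
  have hhj : ∀ j, h j = ∑ i ∈ univ.filter (fun i : Fin N => β i = j), 1 / q i := fun j => by rw [hhd]
  have hw : ∀ γ, 0 ≤ muP q γ * max (f γ) 0 := fun γ => mul_nonneg (hμ γ) (le_max_right _ _)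
  have hsum : ∀ J, m ≤ J → J ≤ n1 → ∑ j ∈ Ico m J, R * Real.sinh (j / n) *
      (h j * a (j + 1) - (1 + 2 * R) * (a j - a (j + 1))) ≤ 2 * E := by
    intro J hJ1 hJ2
    have key := h1 N k n q β f hq hL (1 / (n : ℝ)) (by positivity)
      (fun i => if β i < J then R else 0) 1 (1 / 3)
      (fun i => by
        show 0 ≤ (if β i < J then R else 0)
        split_ifs
        · exact hR0
        · exact le_rfl) (by norm_num) (by norm_num)
      (fun r hr hr1 => PSR_log hr hr1)
      (fun i => by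
        show (if β i < J then R else 0) * _ ≤ _
        have e1 := hcosh _ (hβr i).2
        have e2 := Real.cosh_pos (β i * (1 / (n : ℝ)))
        split_ifs
        · calc R * (Real.cosh (β i * (1 / (n : ℝ))) + 1) ≤ 1 / 8 * (8 / 3) :=
              mul_le_mul hR8 (by linarith) (by linarith) (by norm_num)
            _ = 1 / 3 := by norm_num
        · rw [zero_mul]
          norm_num) (by rw [← hE]; exact hEpos)
    rw [← hE] at key
    have hrhs : (n * (1 / (n : ℝ)) + Real.log ((∑ γ, muP q γ * |f γ|) / E)) * E ≤ 2 * E := by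
      refine mul_le_mul_of_nonneg_right ?_ hEpos.le
      have e1 : (n : ℝ) * (1 / (n : ℝ)) = 1 := by field_simp
      have e2 : (∑ γ, muP q γ * |f γ|) / E ≤ 2 := by
        rw [div_le_iff₀ hEpos]
        exact habs
      have e3 : 0 < (∑ γ, muP q γ * |f γ|) / E := by
        refine div_pos (lt_of_lt_of_le hpos ?_) hEpos
        exact Finset.sum_le_sum fun γ _ => mul_le_mul_of_nonneg_left (le_abs_self _) (hμ γ)
      have e4 := Real.log_le_log e3 e2
      have e5 := Real.log_two_lt_d9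
      linarith
    refine le_trans ?_ (key.trans hrhs)
    have e1 : ∑ j ∈ Ico m J, R * Real.sinh (j / n) *
        (h j * a (j + 1) - (1 + 2 * R) * (a j - a (j + 1))) =
        ∑ γ, muP q γ * max (f γ) 0 * ∑ j ∈ Ico m J, R * Real.sinh (j / n) *
        (h j * ((PSab β γ (j + 1)).card : ℝ) -
          (1 + 2 * R) * (((PSab β γ j).card : ℝ) - ((PSab β γ (j + 1)).card : ℝ))) := by
      simp_rw [Finset.mul_sum (Ico m J)]
      rw [Finset.sum_comm]
      refine Finset.sum_congr rfl fun j _ => ?_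
      have e2 : R * Real.sinh (j / n) * (h j * a (j + 1) - (1 + 2 * R) * (a j - a (j + 1))) =
          (R * Real.sinh (j / n) * (h j + (1 + 2 * R))) * a (j + 1) -
            (R * Real.sinh (j / n) * (1 + 2 * R)) * a j := by ring
      rw [e2, haj, haj, Finset.mul_sum, Finset.mul_sum, ← Finset.sum_sub_distrib]
      exact Finset.sum_congr rfl fun γ _ => by ring
    rw [e1]
    refine Finset.sum_le_sum fun γ _ => mul_le_mul_of_nonneg_left ?_ (hw γ)
    rw [← Finset.sum_fiberwise_of_maps_to (s := univ) (t := Ico m n1) (g := β)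
      (fun i _ => Finset.mem_Ico.2 (hβr i))]
    rw [← Finset.sum_Ico_consecutive _ hJ1 hJ2]
    have e3 : ∑ j ∈ Ico J n1, ∑ i ∈ univ.filter (fun i : Fin N => β i = j),
        (if β i < J then R else 0) * Real.sinh (β i * (1 / (n : ℝ))) *
        (((alive γ i).card : ℝ) / q i - (1 + 1 * (if β i < J then R else 0) *
          Real.cosh (β i * (1 / (n : ℝ)))) * (if Hit (alive γ i) (γ i) then 1 else 0)) = 0 := by
      refine Finset.sum_eq_zero fun j hj => Finset.sum_eq_zero fun i hi => ?_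
      have hj' := Finset.mem_Ico.1 hj
      rw [mem_filter] at hi
      rw [if_neg (by omega), zero_mul, zero_mul]
    rw [e3, add_zero]
    refine Finset.sum_le_sum fun j hj => ?_
    obtain ⟨hj1, hj2⟩ := Finset.mem_Ico.1 hj
    have e4 := PSR_blk hβ q hq0 γ j (x := j * (1 / (n : ℝ))) (Rj := R) (by positivity) hR0
      (by linarith [hcosh j (by omega)])
    rw [hhj, show (j : ℝ) / n = j * (1 / (n : ℝ)) by ring]
    refine e4.trans (le_of_eq ?_)
    refine Finset.sum_congr rfl fun i hi => ?_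
    rw [(mem_filter.1 hi).2, if_pos hj2]
  have hfin := hg m n1 n k η a h E hm hmn hnk hn hη hη1 hEpos.le
    (fun j => by
      rw [haj]
      exact Finset.sum_nonneg fun γ _ => mul_nonneg (hw γ) (Nat.cast_nonneg _))
    (fun j _ _ => by
      rw [haj, haj]
      refine Finset.sum_le_sum fun γ _ => mul_le_mul_of_nonneg_left ?_ (hw γ)
      exact_mod_cast Finset.card_le_card (PSab_anti γ j))
    (by
      rw [haj, hE, Finset.mul_sum]
      refine Finset.sum_le_sum fun γ _ => ?_
      rw [mul_comm (k : ℝ)]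
      refine mul_le_mul_of_nonneg_left ?_ (hw γ)
      have := Finset.card_le_univ (PSab β γ m)
      rw [Fintype.card_fin] at this
      exact_mod_cast this)
    (fun j hj1 hj2 => by
      rw [hhj]
      exact hh j hj1 hj2)
    (fun J hJ1 hJ2 => by
      rw [← hR]
      exact hsum J hJ1 hJ2)
  have han : a n1 = ∑ γ, muP q γ * max (f γ) 0 * ((alive γ N).card : ℝ) := by
    rw [haj]
    refine Finset.sum_congr rfl fun γ _ => ?_
    have : PSab β γ n1 = alive γ N := by
      ext x
      unfold PSab alive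
      rw [mem_filter, mem_filter]
      refine ⟨fun hx => ⟨mem_univ _, fun i _ => hx.2 i (hβr i).2⟩,
        fun hx => ⟨mem_univ _, fun i _ => hx.2 i i.2⟩⟩
    rw [this]
  rw [han] at hfin
  rw [← hE]
  exact hfin

end Pool.Agent.N422.UF
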