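import Pool.Agent.N422.UF.GRON3
import Pool.Agent.N422.UF.PSR3
import Pool.Agent.N422.UF.MERT
import Pool.Agent.N422.UF.FINV
import Pool.Agent.N422.CD.ALL

/-! Project UF: assembly. Author: helper422 (parts: helpers 755, 427, 91, 94; CD: 152, 273; WS: 704; NW: 92, 849, 427, 603). -/

set_option autoImplicit false

namespace Pool.Agent.N422.UF

open Finset Pool.Agent.N422.NW Pool.Agent.N422.SL Pool.Agent.N422.WS Pool.Agent.N422.CD

theorem finv_all : S_FINV :=
  t_FINV (t_PSR3 (t_NWR t_KER t_POLY t_AV (t_GEN2 t_JEN t_AV)) t_GRON3) t_ARD t_MERT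

end Pool.Agent.N422.UF
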