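import Pool.Agent.N422.UF.Stm
import Pool.Agent.N422.CD.GRON

/-!
# Project UF (helper422), leaf GRON3 (helper755): discrete Gronwall inequality with variable errors

The proof is that of `CD.t_GRON` (helper359) with the errors `η j` in place of a constant one.
-/

set_option autoImplicit false

open Finset

namespace Pool.Agent.N422.UF

open Pool.Agent.N422.NW Pool.Agent.N422.SL Pool.Agent.N422.WS Pool.Agent.N422.CD

theorem t_GRON3 : S_GRON3 := by
  refine ⟨20 * Real.exp 6, by positivity, ?_⟩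
  intro m n1 n k η A h E hm hmn hn1 hnk hη hηs hE hA hAm hAk hh hJ
  have hm' : (1 : ℝ) ≤ m := by exact_mod_cast hm
  have hn0 : (0 : ℝ) < n := by exact_mod_cast (by omega : 0 < n)
  have hn10 : (0 : ℝ) < n1 := by exact_mod_cast (by omega : 0 < n1)
  have hk0 : 0 < k := by
    rcases Nat.eq_zero_or_pos k with h0 | h0
    · rw [h0, zero_mul] at hnk
      omega
    · exact h0
  have hk' : (1 : ℝ) ≤ k := by exact_mod_cast hk0
  have hlog : 0 ≤ Real.log ((n1 : ℝ) / m) := by
    apply Real.log_nonneg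
    rw [le_div_iff₀ (by linarith), one_mul]
    exact_mod_cast hmn
  set L : ℝ := 1 + Real.log ((n1 : ℝ) / m) with hL
  have hL1 : 1 ≤ L := by linarith
  set R : ℝ := 1 / (8 * L) with hR
  have hR0 : 0 < R := by positivity
  have hRL : R * L = 1 / 8 := by rw [hR]; field_simp
  have hR8 : R ≤ 1 / 8 := by nlinarith
  set s : ℕ → ℝ := fun j => Real.sinh ((j : ℝ) / n) with hs
  -- facts on `s`
  have hs1 : ∀ j : ℕ, (j : ℝ) / n ≤ s j := fun j => Real.self_le_sinh_iff.2 (by positivity)
  have hs0 : ∀ j : ℕ, 0 ≤ s j := fun j => le_trans (by positivity) (hs1 j)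
  have hdiff : ∀ j : ℕ, j < n1 → s (j + 1) - s j ≤ (1 + ((j : ℝ) / n + 1 / n) ^ 2) * (1 / n) := by
    intro j hj
    have e : (((j + 1 : ℕ) : ℝ)) / n = (j : ℝ) / n + 1 / n := by push_cast; ring
    have h1 : (j : ℝ) / n + 1 / n ≤ 1 := by
      rw [← e, div_le_one hn0]
      exact_mod_cast (by omega : j + 1 ≤ n)
    have h2 := GRON_mvt (show 0 ≤ (j : ℝ) / n by positivity) (show 0 ≤ 1 / (n : ℝ) by positivity) h1
    rw [← e] at h2 ⊢
    exact h2
  have hu1 : ∀ j : ℕ, j < n1 → (j : ℝ) / n + 1 / n ≤ 1 := by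
    intro j hj
    have e : (((j + 1 : ℕ) : ℝ)) / n = (j : ℝ) / n + 1 / n := by push_cast; ring
    rw [← e, div_le_one hn0]
    exact_mod_cast (by omega : j + 1 ≤ n)
  -- first bound
  have hd1 : ∀ j : ℕ, m ≤ j → j < n1 → s (j + 1) - s j ≤ 2 * (s j / j) := by
    intro j hj1 hj2
    have hj0 : (0 : ℝ) < j := by exact_mod_cast (by omega : 0 < j)
    have h1 := hdiff j hj2
    have h2 := hu1 j hj2
    have h3 : 1 / (n : ℝ) ≤ s j / j := by
      rw [le_div_iff₀ hj0]
      calc 1 / (n : ℝ) * j = j / n := by ring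
        _ ≤ s j := hs1 j
    have h4 : ((j : ℝ) / n + 1 / n) ^ 2 ≤ 1 := by
      have : 0 ≤ (j : ℝ) / n + 1 / n := by positivity
      nlinarith
    have h5 : (0 : ℝ) < 1 / n := by positivity
    nlinarith
  -- second bound
  have hd2 : ∀ j : ℕ, m ≤ j → j < n1 →
      s (j + 1) - s j ≤ s j * (Real.log (((j : ℝ) + 1) / j) + 1 / ((j : ℝ) * (j + 1)) + 3 / n) := by
    intro j hj1 hj2
    have hj0 : (1 : ℝ) ≤ j := by exact_mod_cast (by omega : 1 ≤ j)
    have hj0' : (0 : ℝ) < j := by linarith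
    have h1 := hdiff j hj2
    have h2 := hu1 j hj2
    have h3 := GRON_log (show 1 ≤ j by omega)
    have h4 : (1 : ℝ) / j = 1 / ((j : ℝ) + 1) + 1 / ((j : ℝ) * (j + 1)) := by
      field_simp
    have h5 : (1 : ℝ) / j + 3 / n ≤
        Real.log (((j : ℝ) + 1) / j) + 1 / ((j : ℝ) * (j + 1)) + 3 / n := by linarith
    refine le_trans ?_ (mul_le_mul_of_nonneg_left h5 (hs0 j))
    have h6 : (j : ℝ) / n * (1 / j + 3 / n) ≤ s j * (1 / j + 3 / n) :=
      mul_le_mul_of_nonneg_right (hs1 j) (by positivity)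
    refine le_trans ?_ h6
    have h7 : (j : ℝ) / n * (1 / j + 3 / n) = (1 + 3 * ((j : ℝ) / n)) * (1 / n) := by
      field_simp
    rw [h7]
    refine h1.trans (mul_le_mul_of_nonneg_right ?_ (by positivity))
    have h8 : (1 : ℝ) / n ≤ j / n := by
      apply div_le_div_of_nonneg_right hj0 hn0.le
    have h9 : 0 ≤ (1 : ℝ) / n := by positivity
    nlinarith
  set x : ℕ → ℝ := fun j => s j * A j with hx
  have hx0 : ∀ j, 0 ≤ x j := fun j => mul_nonneg (hs0 j) (hA j)
  set c : ℕ → ℝ := fun j => η j + 1 / ((j : ℝ) * (j + 1)) + 3 / n + 4 * R * (1 / j) with hc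
  have hc0 : ∀ j, m ≤ j → j < n1 → 0 ≤ c j := by
    intro j _ _
    have := hη j
    rw [hc]
    positivity
  set a : ℝ := (1 + 2 * R) * x m + 2 * E / R with ha
  have ha0 : 0 ≤ a := by
    have := hx0 m
    positivity
  have hgr : ∀ J, m ≤ J → J ≤ n1 → x J ≤ a + ∑ j ∈ Ico m J, c j * x j := by
    intro J hJ1 hJ2
    have t1 := hJ J hJ1 hJ2
    have t2 : ∑ j ∈ Ico m J, s j * (h j * A (j + 1) - (1 + 2 * R) * (A j - A (j + 1))) ≤
        2 * E / R := by
      rw [le_div_iff₀ hR0, Finset.sum_mul]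
      refine le_trans (le_of_eq ?_) t1
      apply Finset.sum_congr rfl
      intro j _
      rw [hs]
      ring
    -- telescoping
    have tele : ∀ F : ℕ → ℝ, ∑ j ∈ Ico m J, (F (j + 1) - F j) = F J - F m := by
      intro F
      exact Finset.sum_Ico_sub F hJ1
    have t3 : x J - x m ≤ ∑ j ∈ Ico m J,
        (s j * (h j * A (j + 1) - (1 + 2 * R) * (A j - A (j + 1))) +
          2 * R * (s j * (A j - A (j + 1))) + (η j + 1 / ((j : ℝ) * (j + 1)) + 3 / n) * x j) := by
      rw [← tele x]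
      apply Finset.sum_le_sum
      intro j hj
      rw [Finset.mem_Ico] at hj
      have u1 := hd2 j hj.1 (by omega)
      have u2 := hh j hj.1 (by omega)
      have u3 := hAm j hj.1 (by omega)
      have u4 := hA (j + 1)
      have u5 := hs0 j
      have u6 : (s (j + 1) - s j) * A (j + 1) ≤
          s j * (Real.log (((j : ℝ) + 1) / j) + 1 / ((j : ℝ) * (j + 1)) + 3 / n) * A (j + 1) :=
        mul_le_mul_of_nonneg_right u1 u4
      have u7 : s j * A (j + 1) * (Real.log (((j : ℝ) + 1) / j) - η j) ≤ s j * A (j + 1) * h j :=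
        mul_le_mul_of_nonneg_left u2 (mul_nonneg u5 u4)
      have u8 : (η j + 1 / ((j : ℝ) * (j + 1)) + 3 / n) * (s j * A (j + 1)) ≤
          (η j + 1 / ((j : ℝ) * (j + 1)) + 3 / n) * (s j * A j) := by
        apply mul_le_mul_of_nonneg_left
        · exact mul_le_mul_of_nonneg_left u3 u5
        · have := hη j
          positivity
      show s (j + 1) * A (j + 1) - s j * A j ≤ _
      show s (j + 1) * A (j + 1) - s j * A j ≤
        s j * (h j * A (j + 1) - (1 + 2 * R) * (A j - A (j + 1))) +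
          2 * R * (s j * (A j - A (j + 1))) + (η j + 1 / ((j : ℝ) * (j + 1)) + 3 / n) * (s j * A j)
      linarith
    have t4 : ∑ j ∈ Ico m J, s j * (A j - A (j + 1)) ≤ x m + ∑ j ∈ Ico m J, 2 * (1 / j) * x j := by
      have v1 : ∑ j ∈ Ico m J, s j * (A j - A (j + 1)) =
          ∑ j ∈ Ico m J, (s (j + 1) - s j) * A (j + 1) - (x J - x m) := by
        rw [← tele x, ← Finset.sum_sub_distrib]
        apply Finset.sum_congr rfl
        intro j _
        show s j * (A j - A (j + 1)) = (s (j + 1) - s j) * A (j + 1) -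
          (s (j + 1) * A (j + 1) - s j * A j)
        ring
      have v2 : ∑ j ∈ Ico m J, (s (j + 1) - s j) * A (j + 1) ≤
          ∑ j ∈ Ico m J, 2 * (1 / j) * x j := by
        apply Finset.sum_le_sum
        intro j hj
        rw [Finset.mem_Ico] at hj
        have w1 := hd1 j hj.1 (by omega)
        have w2 := hAm j hj.1 (by omega)
        have w3 : 0 ≤ 2 * (s j / j) := by
          have := hs0 j
          positivity
        calc (s (j + 1) - s j) * A (j + 1) ≤ 2 * (s j / j) * A (j + 1) :=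
              mul_le_mul_of_nonneg_right w1 (hA _)
          _ ≤ 2 * (s j / j) * A j := mul_le_mul_of_nonneg_left w2 w3
          _ = 2 * (1 / j) * x j := by
              show _ = 2 * (1 / (j : ℝ)) * (s j * A j)
              ring
      rw [v1]
      have := hx0 J
      linarith
    rw [Finset.sum_add_distrib, Finset.sum_add_distrib, ← Finset.mul_sum] at t3
    have t5 : ∑ j ∈ Ico m J, c j * x j =
        ∑ j ∈ Ico m J, (η j + 1 / ((j : ℝ) * (j + 1)) + 3 / n) * x j +
          2 * R * ∑ j ∈ Ico m J, 2 * (1 / j) * x j := by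
      rw [Finset.mul_sum, ← Finset.sum_add_distrib]
      apply Finset.sum_congr rfl
      intro j _
      rw [hc]
      ring
    have t6 : 2 * R * ∑ j ∈ Ico m J, s j * (A j - A (j + 1)) ≤
        2 * R * (x m + ∑ j ∈ Ico m J, 2 * (1 / j) * x j) :=
      mul_le_mul_of_nonneg_left t4 (by positivity)
    rw [t5, ha]
    linarith
  have hfin := GRON_main ha0 hc0 hgr hmn
  -- the exponent
  have hexp : ∑ j ∈ Ico m n1, c j ≤ 6 := by
    have e1 : ∑ j ∈ Ico m n1, c j = ∑ j ∈ Ico m n1, η j + (1 / (m : ℝ) - 1 / n1) +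
        ((n1 - m : ℕ) : ℝ) * (3 / n) + 4 * R * ∑ j ∈ Ico m n1, 1 / (j : ℝ) := by
      rw [hc, Finset.sum_add_distrib, Finset.sum_add_distrib, Finset.sum_add_distrib,
        GRON_sum_inv hm hmn, ← Finset.mul_sum, Finset.sum_const, Nat.card_Ico, nsmul_eq_mul]
    rw [e1]
    have e2 : ((n1 - m : ℕ) : ℝ) ≤ n := by exact_mod_cast (by omega : n1 - m ≤ n)
    have e4 : 1 / (m : ℝ) ≤ 1 := by
      rw [div_le_one (by linarith)]
      exact hm'
    have e5 : 0 ≤ 1 / (n1 : ℝ) := by positivity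
    have e6 : ((n1 - m : ℕ) : ℝ) * (3 / n) ≤ 3 := by
      rw [mul_div_assoc', div_le_iff₀ hn0]
      linarith
    have e7 := GRON_sum_harm hm hmn
    have e8 : ∑ j ∈ Ico m n1, 1 / (j : ℝ) ≤ L := by linarith
    have e9 : 4 * R * ∑ j ∈ Ico m n1, 1 / (j : ℝ) ≤ 4 * R * L :=
      mul_le_mul_of_nonneg_left e8 (by positivity)
    have e10 : 4 * R * L = 1 / 2 := by
      calc 4 * R * L = 4 * (R * L) := by ring
        _ = 1 / 2 := by rw [hRL]; norm_num
    linarith
  -- the start
  have hxm : x m ≤ 2 * E := by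
    have e1 : (m : ℝ) / n = 1 / k := by
      rw [hnk]
      push_cast
      have : (m : ℝ) ≠ 0 := by linarith
      field_simp
    have e2 : s m ≤ 2 * (1 / k) := by
      have h1 := GRON_mvt (le_refl (0 : ℝ)) (show 0 ≤ 1 / (k : ℝ) by positivity) (by
        rw [zero_add, div_le_one (by linarith)]
        exact hk')
      rw [zero_add, Real.sinh_zero, sub_zero] at h1
      have h2 : (1 / (k : ℝ)) ≤ 1 := by
        rw [div_le_one (by linarith)]
        exact hk'
      have h3 : 0 ≤ 1 / (k : ℝ) := by positivity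
      show Real.sinh ((m : ℝ) / n) ≤ _
      rw [e1]
      nlinarith
    calc s m * A m ≤ s m * (k * E) := mul_le_mul_of_nonneg_left hAk (hs0 m)
      _ ≤ 2 * (1 / k) * (k * E) := mul_le_mul_of_nonneg_right e2 (by positivity)
      _ = 2 * E := by field_simp
  have haE : a ≤ 20 * L * E := by
    have e1 : 2 * E / R = 16 * L * E := by
      rw [hR]
      field_simp
      ring
    rw [ha, e1]
    have e2 : (1 + 2 * R) * x m ≤ (1 + 2 * R) * (2 * E) :=
      mul_le_mul_of_nonneg_left hxm (by positivity)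
    have e3 : R * E ≤ 1 / 8 * E := mul_le_mul_of_nonneg_right hR8 hE
    have e4 : E ≤ L * E := by nlinarith
    nlinarith
  have hx1 : x n1 ≤ 20 * L * E * Real.exp 6 := by
    refine hfin.trans ?_
    have e1 : Real.exp (∑ j ∈ Ico m n1, c j) ≤ Real.exp 6 := Real.exp_le_exp.2 hexp
    exact mul_le_mul haE e1 (Real.exp_pos _).le (by positivity)
  have hA1 : A n1 ≤ (n : ℝ) / n1 * x n1 := by
    have e1 : (n1 : ℝ) / n * A n1 ≤ x n1 := mul_le_mul_of_nonneg_right (hs1 n1) (hA n1)
    calc A n1 = (n : ℝ) / n1 * ((n1 : ℝ) / n * A n1) := by field_simp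
      _ ≤ _ := mul_le_mul_of_nonneg_left e1 (by positivity)
  calc A n1 ≤ (n : ℝ) / n1 * x n1 := hA1
    _ ≤ (n : ℝ) / n1 * (20 * L * E * Real.exp 6) := mul_le_mul_of_nonneg_left hx1 (by positivity)
    _ = _ := by ring

end Pool.Agent.N422.UF
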