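import Pool.Agent.N422.CD.Stm

/-! Project UF (helper422): sifting limits for `k` linear forms, uniformly in `k` and in the coefficients: statements of the
self-contained pieces. -/

set_option autoImplicit false

open Finset

namespace Pool.Agent.N422.UF

open Pool.Agent.N422.NW Pool.Agent.N422.SL Pool.Agent.N422.WS Pool.Agent.N422.CD

/-- the numerical sequence (UF/GRON3) -/
def S_GRON3 : Prop := ∃ C : ℝ, 0 < C ∧ ∀ (m n1 n k : ℕ) (η A h : ℕ → ℝ) (E : ℝ), 1 ≤ m → m ≤ n1 → n1 ≤ n →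
  n = k * m → (∀ j, 0 ≤ η j) → ∑ j ∈ Ico m n1, η j ≤ 1 → 0 ≤ E → (∀ j, 0 ≤ A j) →
  (∀ j, m ≤ j → j < n1 → A (j + 1) ≤ A j) → A m ≤ k * E →
  (∀ j, m ≤ j → j < n1 → Real.log (((j : ℝ) + 1) / j) - η j ≤ h j) →
  (∀ J, m ≤ J → J ≤ n1 → ∑ j ∈ Ico m J, (1 / (8 * (1 + Real.log ((n1 : ℝ) / m)))) * Real.sinh (j / n) *
    (h j * A (j + 1) - (1 + 2 * (1 / (8 * (1 + Real.log ((n1 : ℝ) / m))))) * (A j - A (j + 1))) ≤ 2 * E) →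
  A n1 ≤ C * ((n : ℝ) / n1) * (1 + Real.log ((n1 : ℝ) / m)) * E

/-- the limit in the model (UF/PSR3) -/
def S_PSR3 : Prop := ∃ C : ℝ, 0 < C ∧ ∀ (k m n1 N : ℕ) (q : Fin N → ℝ) (β : Fin N → ℕ) (η : ℕ → ℝ) (f : St N k → ℝ),
  1 ≤ k → 1 ≤ m → m ≤ n1 → n1 ≤ k * m → Monotone β → (∀ i, m ≤ β i ∧ β i < n1) → (∀ i, (k : ℝ) < q i) →
  (∀ j, 0 ≤ η j) → ∑ j ∈ Ico m n1, η j ≤ 1 →
  (∀ j, m ≤ j → j < n1 → Real.log (((j : ℝ) + 1) / j) - η j ≤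
    ∑ i ∈ univ.filter (fun i => β i = j), 1 / q i) → Lev β (k * m) f → 0 < ∑ γ, muP q γ * f γ →
  ∑ γ, muP q γ * max (f γ) 0 * ((alive γ N).card : ℝ) ≤
    C * ((k * m : ℝ) / n1) * (1 + Real.log ((n1 : ℝ) / m)) * ∑ γ, muP q γ * max (f γ) 0

/-- Mertens (UF/MERT) -/
def S_MERT : Prop := ∃ K : ℝ, 1 ≤ K ∧ ∀ a b : ℝ, 2 ≤ a → a ≤ b →
  Real.log (Real.log b / Real.log a) - K / Real.log a ≤
    ∑ p ∈ (Icc 1 ⌊b⌋₊).filter (fun p : ℕ => p.Prime ∧ a < p), 1 / (p : ℝ)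

/-- the theorem (UF/FINV) -/
def S_FINV : Prop := ∃ c0 : ℝ, 0 < c0 ∧ ∀ B : ℝ, ∃ Q0 : ℕ, ∀ Q : ℕ, Q0 ≤ Q → ∀ k : ℕ, 1 ≤ k →
  k * Real.log (3 * k) ≤ c0 * Real.log Q → ∀ A A' : Fin k → ℕ,
  (∀ i, 0 < A i ∧ (A i : ℝ) ≤ (Q : ℝ) ^ B ∧ (A' i : ℝ) ≤ (Q : ℝ) ^ B) → (∀ i j, i ≠ j → A i * A' j ≠ A j * A' i) →
  ∀ s : ℝ, 1 ≤ s → s ≤ c0 * k → ∀ c : ℕ → ℕ → ℝ,
  (∀ n, (∃ p ∈ SL.PY Q (1 / s), ∃ i, p ∣ A i * n + A' i) → wt Q c n ≤ 0) → mn Q c ≤ 0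

end Pool.Agent.N422.UF
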